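import Pool.Agent.Lib.MP_fcebdf_lc.Main

set_option autoImplicit false

namespace Pool.Agent.Results.MP_fcebdf_lc.Separation

open Pool.Agent.Lib.helper81 Pool.Agent.Lib.MP_fcebdf_lc

/-- From a measurable cardinal: for every `m ≥ 2` there is a well-founded model of ZFC in which
the relation at aleph two fails for `< m` and holds for `< n` whenever `m < n ≤ ω`. -/
theorem result (K : Type) (U : Ultrafilter K) (hK : Cardinal.aleph0 < Cardinal.mk K)
    (hU : ∀ x, {x} ∉ U) (hc : CardinalInterFilter (U : Filter K) (Cardinal.mk K))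
    (m : ℕ) (hm : 2 ≤ m) :
    ∃ (M : Type) (E : M → M → Prop), IsZF E ∧ Choice E ∧ WellFounded E ∧
      ∃ w w1 w2 : M, Omega E w ∧ Next E w w1 ∧ Next E w1 w2 ∧ ¬ HC E w2 w (m : ℕ∞) ∧
        ∀ n : ℕ∞, (m : ℕ∞) < n → HC E w2 w n := by
  obtain ⟨L, rfl⟩ : ∃ L, m = L + 2 := ⟨m - 2, by omega⟩
  exact main K U hK hU hc L

end Pool.Agent.Results.MP_fcebdf_lc.Separation
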